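import Mathlib

/-!
# Injective homomorphism counts into the Desarguesian planes of prime order do not converge

Let `H` be the incidence graph of the affine plane of order three (nine points, twelve lines).
Any two points of `H` lie on a line, so an injective homomorphism of `H` into the incidence graph
of `PG(2, p)` is an embedding of the affine plane. In suitable coordinates such an embedding
yields a root of `t² - t + 1` in the field with `p` elements, which does not exist for
`p ≡ 2 (mod 3)`; for `p ≡ 1 (mod 3)` a root exists and gives an embedding. Both residue classes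
contain infinitely many primes, hence the sequence `log_p inj(H, G_p)` is equal to `-∞` infinitely
often and nonnegative infinitely often.
-/

set_option autoImplicit false

open scoped LinearAlgebra.Projectivization
open Filter

namespace Pool.Agent.Results.MP_5e7574_co.PrimesDiverge

/-- A bipartite graph with labelled vertex classes `V₁`, `V₂`. -/
structure BGraph where
  V₁ : Type
  V₂ : Type
  E : V₁ → V₂ → Prop

/-- The number of label-preserving homomorphisms from `H` to `G` that are injective on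
vertices. -/
noncomputable def inj (H G : BGraph) : ℕ :=
  Nat.card {f : (H.V₁ → G.V₁) × (H.V₂ → G.V₂) //
    Function.Injective f.1 ∧ Function.Injective f.2 ∧ ∀ x y, H.E x y → G.E (f.1 x) (f.2 y)}

/-- The point-line incidence graph of `PG(2, p)`. Points and lines are given by homogeneous
coordinates (nonzero vectors of length three up to scalars), and a point is on a line if the dot
product of the coordinates vanishes. -/
def plane (p : {q : ℕ // q.Prime}) : BGraph :=
  haveI : Fact (p : ℕ).Prime := ⟨p.2⟩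
  { V₁ := ℙ (ZMod p) (Fin 3 → ZMod p)
    V₂ := ℙ (ZMod p) (Fin 3 → ZMod p)
    E := fun x l => Projectivization.orthogonal x l }

/-- `log_p inj(H, G_p)`, an extended real number, with `log_p 0 = -∞`. -/
noncomputable def logInj (H : BGraph) (p : {q : ℕ // q.Prime}) : EReal :=
  ENNReal.log (inj H (plane p) : ENNReal) / ((Real.log (p : ℕ) : ℝ) : EReal)

/-- The affine plane of order three. The points are the pairs `(x, y)` of residues modulo `3`, the
lines are `y = m x + c`, which is `(some m, c)`, and `x = c`, which is `(none, c)`. -/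
def ag : BGraph where
  V₁ := Fin 3 × Fin 3
  V₂ := Option (Fin 3) × Fin 3
  E := fun P l => match l with
    | (some m, c) => P.2 = m * P.1 + c
    | (none, c) => P.1 = c

/-- incidence of the affine plane, as a decidable relation -/
def inc (P : Fin 3 × Fin 3) (l : Option (Fin 3) × Fin 3) : Bool :=
  match l with
    | (some m, c) => P.2 == m * P.1 + c
    | (none, c) => P.1 == c

lemma ag_E (P : Fin 3 × Fin 3) (l : Option (Fin 3) × Fin 3) : ag.E P l ↔ inc P l = true := by
  rcases l with ⟨_ | m, c⟩ <;> simp [ag, inc]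

lemma ag_join : ∀ P Q : Fin 3 × Fin 3, ∃ l, inc P l = true ∧ inc Q l = true := by decide

lemma ag_two : ∀ l : Option (Fin 3) × Fin 3, ∀ P, ∃ Q, Q ≠ P ∧ inc Q l = true := by decide

lemma ag_off_pt : ∀ P : Fin 3 × Fin 3, ∃ l, inc P l = false := by decide

lemma ag_off_line : ∀ l : Option (Fin 3) × Fin 3, ∃ P, inc P l = false := by decide

lemma ag_sep_pt : ∀ P Q : Fin 3 × Fin 3, P ≠ Q → ∃ l, inc P l = true ∧ inc Q l = false := by
  decide

lemma ag_sep_line : ∀ l m : Option (Fin 3) × Fin 3, l ≠ m →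
    ∃ P, inc P l = true ∧ inc P m = false := by
  decide

section Algebra

variable {K : Type*} [Field K]

/-- An embedding of the affine plane of order three in vectors. -/
structure Emb (K : Type*) [Field K] where
  v : Fin 3 × Fin 3 → Fin 3 → K
  w : Option (Fin 3) × Fin 3 → Fin 3 → K
  hv : ∀ P, v P ≠ 0
  hw : ∀ l, w l ≠ 0
  h : ∀ P l, dotProduct (v P) (w l) = 0 ↔ inc P l = true

/-- A collinear triple has determinant zero. -/
lemma Emb.det_zero (e : Emb K) (l : Option (Fin 3) × Fin 3) (P Q R : Fin 3 × Fin 3)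
    (hP : inc P l = true) (hQ : inc Q l = true) (hR : inc R l = true) :
    (Matrix.of ![e.v P, e.v Q, e.v R]).det = 0 := by
  rw [← Matrix.exists_mulVec_eq_zero_iff]
  refine ⟨e.w l, e.hw l, ?_⟩
  have h1 := (e.h P l).2 hP
  have h2 := (e.h Q l).2 hQ
  have h3 := (e.h R l).2 hR
  ext i
  fin_cases i
  · simpa [Matrix.mulVec] using h1
  · simpa [Matrix.mulVec] using h2
  · simpa [Matrix.mulVec] using h3

/-- The new coordinates of a point: the values of three linear forms. -/
def Emb.u (e : Emb K) (P : Fin 3 × Fin 3) : Fin 3 → K :=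
  ![dotProduct (e.v P) (e.w (some 2, 1)) / dotProduct (e.v (1, 1)) (e.w (some 2, 1)),
    dotProduct (e.v P) (e.w (some 0, 0)) / dotProduct (e.v (1, 1)) (e.w (some 0, 0)),
    dotProduct (e.v P) (e.w (none, 0)) / dotProduct (e.v (1, 1)) (e.w (none, 0))]

/-- the matrix of the three linear forms -/
def Emb.M (e : Emb K) : Matrix (Fin 3) (Fin 3) K :=
  Matrix.of fun i j => ![e.w (some 2, 1) i / dotProduct (e.v (1, 1)) (e.w (some 2, 1)),
    e.w (some 0, 0) i / dotProduct (e.v (1, 1)) (e.w (some 0, 0)),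
    e.w (none, 0) i / dotProduct (e.v (1, 1)) (e.w (none, 0))] j

lemma Emb.u_eq (e : Emb K) (P : Fin 3 × Fin 3) : e.u P = Matrix.vecMul (e.v P) e.M := by
  ext j
  fin_cases j <;>
    simp [Emb.u, Emb.M, Matrix.vecMul, dotProduct, Fin.sum_univ_three] <;> ring

lemma Emb.det_u (e : Emb K) (l : Option (Fin 3) × Fin 3) (P Q R : Fin 3 × Fin 3)
    (hP : inc P l = true) (hQ : inc Q l = true) (hR : inc R l = true) :
    (Matrix.of ![e.u P, e.u Q, e.u R]).det = 0 := by
  have : Matrix.of ![e.u P, e.u Q, e.u R] = Matrix.of ![e.v P, e.v Q, e.v R] * e.M := by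
    ext i j
    fin_cases i <;> simp [Matrix.mul_apply, e.u_eq, Matrix.vecMul, dotProduct]
  rw [this, Matrix.det_mul, e.det_zero l P Q R hP hQ hR, zero_mul]

/-- An embedding of the affine plane of order three gives a root of `t² - t + 1`. -/
theorem Emb.root (e : Emb K) : ∃ t : K, t ^ 2 - t + 1 = 0 := by
  have c1 : dotProduct (e.v (1, 1)) (e.w (some 2, 1)) ≠ 0 := by
    rw [Ne, e.h]; decide
  have c2 : dotProduct (e.v (1, 1)) (e.w (some 0, 0)) ≠ 0 := by
    rw [Ne, e.h]; decide
  have c3 : dotProduct (e.v (1, 1)) (e.w (none, 0)) ≠ 0 := by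
    rw [Ne, e.h]; decide
  -- the zero coordinates and the nonzero coordinates
  have z0 : ∀ P, e.u P 0 = 0 ↔ inc P (some 2, 1) = true := by
    intro P; simp [Emb.u, c1, e.h]
  have z1 : ∀ P, e.u P 1 = 0 ↔ inc P (some 0, 0) = true := by
    intro P; simp [Emb.u, c2, e.h]
  have z2 : ∀ P, e.u P 2 = 0 ↔ inc P (none, 0) = true := by
    intro P; simp [Emb.u, c3, e.h]
  have o0 : e.u (1, 1) 0 = 1 := by simp [Emb.u, c1]
  have o1 : e.u (1, 1) 1 = 1 := by simp [Emb.u, c2]
  have o2 : e.u (1, 1) 2 = 1 := by simp [Emb.u, c3]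
  have q3 := e.det_u (some 1, 0) (0, 0) (1, 1) (2, 2) (by decide) (by decide) (by decide)
  have q4 := e.det_u (some 2, 0) (0, 0) (1, 2) (2, 1) (by decide) (by decide) (by decide)
  have q6 := e.det_u (some 0, 1) (0, 1) (1, 1) (2, 1) (by decide) (by decide) (by decide)
  have q7 := e.det_u (some 1, 1) (0, 1) (1, 2) (2, 0) (by decide) (by decide) (by decide)
  have q8 := e.det_u (some 1, 2) (0, 2) (1, 0) (2, 1) (by decide) (by decide) (by decide)
  have q10 := e.det_u (some 0, 2) (0, 2) (1, 2) (2, 2) (by decide) (by decide) (by decide)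
  have q11 := e.det_u (none, 1) (1, 0) (1, 1) (1, 2) (by decide) (by decide) (by decide)
  simp only [Matrix.det_fin_three, Matrix.of_apply, Matrix.cons_val_zero, Matrix.cons_val_one,
    Matrix.cons_val] at q3 q4 q6 q7 q8 q10 q11
  have a00 : e.u (0, 0) 1 = 0 := (z1 _).2 (by decide)
  have b00 : e.u (0, 0) 2 = 0 := (z2 _).2 (by decide)
  have n00 : e.u (0, 0) 0 ≠ 0 := by rw [Ne, z0]; decide
  have a01 : e.u (0, 1) 0 = 0 := (z0 _).2 (by decide)
  have b01 : e.u (0, 1) 2 = 0 := (z2 _).2 (by decide)
  have n01 : e.u (0, 1) 1 ≠ 0 := by rw [Ne, z1]; decide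
  have a10 : e.u (1, 0) 0 = 0 := (z0 _).2 (by decide)
  have b10 : e.u (1, 0) 1 = 0 := (z1 _).2 (by decide)
  have n10 : e.u (1, 0) 2 ≠ 0 := by rw [Ne, z2]; decide
  have a22 : e.u (2, 2) 0 = 0 := (z0 _).2 (by decide)
  have n22 : e.u (2, 2) 1 ≠ 0 := by rw [Ne, z1]; decide
  have a02 : e.u (0, 2) 2 = 0 := (z2 _).2 (by decide)
  have n02 : e.u (0, 2) 0 ≠ 0 := by rw [Ne, z0]; decide
  have a20 : e.u (2, 0) 1 = 0 := (z1 _).2 (by decide)
  have n20 : e.u (2, 0) 0 ≠ 0 := by rw [Ne, z0]; decide
  have n12 : e.u (1, 2) 0 ≠ 0 := by rw [Ne, z0]; decide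
  have n21 : e.u (2, 1) 0 ≠ 0 := by rw [Ne, z0]; decide
  simp only [o0, o1, o2, a00, b00, a01, b01, a10, b10, a22, a02, a20] at q3 q4 q6 q7 q8 q10 q11
  generalize e.u (0, 0) 0 = α at *
  generalize e.u (0, 1) 1 = β at *
  generalize e.u (1, 0) 2 = γ at *
  generalize e.u (2, 2) 1 = s at *
  generalize e.u (2, 2) 2 = s' at *
  generalize e.u (0, 2) 0 = a1 at *
  generalize e.u (0, 2) 1 = a2 at *
  generalize e.u (2, 0) 0 = b1 at *
  generalize e.u (2, 0) 2 = b3 at *
  generalize e.u (1, 2) 0 = c1 at *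
  generalize e.u (1, 2) 1 = c2 at *
  generalize e.u (1, 2) 2 = c3 at *
  generalize e.u (2, 1) 0 = d1 at *
  generalize e.u (2, 1) 1 = d2 at *
  generalize e.u (2, 1) 2 = d3 at *
  have hs : s' = s := by
    have h : α * (s' - s) = 0 := by linear_combination q3
    rcases mul_eq_zero.1 h with h | h
    · exact absurd h n00
    · linear_combination h
  have hc : c2 = c1 := by
    have h : γ * (c2 - c1) = 0 := by linear_combination q11
    rcases mul_eq_zero.1 h with h | h
    · exact absurd h n10
    · linear_combination h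
  have hd : d3 = d1 := by
    have h : β * (d1 - d3) = 0 := by linear_combination q6
    rcases mul_eq_zero.1 h with h | h
    · exact absurd h n01
    · linear_combination -h
  subst hs hc hd
  have h4 : c2 * d3 = c3 * d2 := by
    have h : α * (c2 * d3 - c3 * d2) = 0 := by linear_combination q4
    rcases mul_eq_zero.1 h with h | h
    · exact absurd h n00
    · linear_combination h
  have h8 : a1 * d2 = a2 * d3 := by
    have h : γ * (a2 * d3 - a1 * d2) = 0 := by linear_combination q8
    rcases mul_eq_zero.1 h with h | h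
    · exact absurd h n10
    · linear_combination -h
  have h10 : a1 * (c2 - c3) = a2 * c2 := by
    have h : s' * (a1 * (c2 - c3) - a2 * c2) = 0 := by linear_combination q10
    rcases mul_eq_zero.1 h with h | h
    · exact absurd h n22
    · linear_combination h
  have h5 : a1 * c2 = a2 * c3 := by
    have h : d3 * (a1 * c2 - a2 * c3) = 0 := by linear_combination a1 * h4 + c3 * h8
    rcases mul_eq_zero.1 h with h | h
    · exact absurd h n21
    · linear_combination h
  have h6 : a2 ^ 2 - a2 * a1 + a1 ^ 2 = 0 := by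
    have h : c2 * (a2 ^ 2 - a2 * a1 + a1 ^ 2) = 0 := by
      linear_combination a1 * h5 - a2 * h10
    rcases mul_eq_zero.1 h with h | h
    · exact absurd h n12
    · exact h
  refine ⟨a2 / a1, ?_⟩
  field_simp
  linear_combination h6

/-- The vectors of the points for a root `t` of `t² - t + 1`. -/
def pv (t : K) (P : Fin 3 × Fin 3) : Fin 3 → K :=
  ![![![1, 0, 0], ![0, 1, 0], ![1, t, 0]],
    ![![0, 0, 1], ![1, 1, 1], ![1, 1, 1 - t]],
    ![![1, 0, 1 - t], ![1, t, 1], ![0, 1, 1]]] P.1 P.2

/-- The vectors of the lines for a root `t` of `t² - t + 1`. -/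
def lv (t : K) (l : Option (Fin 3) × Fin 3) : Fin 3 → K :=
  match l.1 with
  | some m => ![![![0, 1, 0], ![1, 0, -1], ![t, -1, 1]],
      ![![0, 1, -1], ![1 - t, 0, -1], ![t, -1, 0]],
      ![![0, 1, -t], ![1, 0, 0], ![-t, 1, t - 1]]] m l.2
  | none => ![![0, 0, 1], ![1, -1, 0], ![1 - t, 1, -1]] l.2

lemma pv_lv (t : K) (ht : t ^ 2 - t + 1 = 0) (h3 : (3 : K) ≠ 0) (P : Fin 3 × Fin 3)
    (l : Option (Fin 3) × Fin 3) : dotProduct (pv t P) (lv t l) = 0 ↔ inc P l = true := by
  have t0 : t ≠ 0 := by rintro rfl; simp at ht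
  have e1 : ∀ x y : K, x * y = 1 → x ≠ 0 := by
    rintro x y h rfl; simp at h
  have e3 : ∀ x y : K, x * y = 3 → x ≠ 0 := by
    rintro x y h rfl; simp at h; exact h3 h.symm
  rcases P with ⟨x, y⟩
  rcases l with ⟨_ | m, c⟩
  · fin_cases x <;> fin_cases y <;> fin_cases c <;>
      simp [pv, lv, inc, dotProduct, Fin.sum_univ_three] <;> grind
  · fin_cases x <;> fin_cases y <;> fin_cases c <;> fin_cases m <;>
      simp [pv, lv, inc, dotProduct, Fin.sum_univ_three] <;> grind

end Algebra

/-- No injective homomorphism for `p ≡ 2 (mod 3)`. -/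
theorem inj_zero (p : {q : ℕ // q.Prime}) (hp : (p : ℕ) % 3 = 2) : inj ag (plane p) = 0 := by
  have : Fact (p : ℕ).Prime := ⟨p.2⟩
  unfold inj
  rw [Nat.card_eq_zero]
  left
  constructor
  rintro ⟨⟨f, g⟩, hf, hg, hE⟩
  have hf' : Function.Injective f := hf
  have hg' : Function.Injective g := hg
  change (Fin 3 × Fin 3) → ℙ (ZMod p) (Fin 3 → ZMod p) at f
  change (Option (Fin 3) × Fin 3) → ℙ (ZMod p) (Fin 3 → ZMod p) at g
  have hinc : ∀ P l, inc P l = true → Projectivization.orthogonal (f P) (g l) :=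
    fun P l h => hE P l ((ag_E P l).2 h)
  have hinc' : ∀ P l, Projectivization.orthogonal (f P) (g l) → inc P l = true := by
    intro P l h
    by_contra hn
    obtain ⟨Q, hQP, hQ⟩ := ag_two l P
    obtain ⟨m, hPm, hQm⟩ := ag_join P Q
    rcases Configuration.ofField.eq_or_eq_of_orthogonal h (hinc Q l hQ) (hinc P m hPm)
      (hinc Q m hQm) with h1 | h1
    · exact hQP (hf' h1).symm
    · have := hg' h1
      subst this
      exact hn hPm
  have key : ∀ x l : ℙ (ZMod p) (Fin 3 → ZMod p),
      Projectivization.orthogonal x l ↔ dotProduct x.rep l.rep = 0 := by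
    intro x l
    conv_lhs => rw [← x.mk_rep, ← l.mk_rep]
    exact Projectivization.orthogonal_mk _ _
  obtain ⟨t, ht⟩ := Emb.root (K := ZMod p)
    { v := fun P => (f P).rep
      w := fun l => (g l).rep
      hv := fun P => (f P).rep_nonzero
      hw := fun l => (g l).rep_nonzero
      h := fun P l => by
        rw [← key]
        exact ⟨hinc' P l, hinc P l⟩ }
  -- `-t` is an element of order three
  have h3 : (3 : ZMod p) ≠ 0 := by
    intro h
    have h' : ((3 : ℕ) : ZMod p) = 0 := by exact_mod_cast h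
    rw [ZMod.natCast_eq_zero_iff] at h'
    have := (Nat.prime_dvd_prime_iff_eq p.2 Nat.prime_three).1 h'
    omega
  have ho : orderOf (-t) = 3 := by
    apply orderOf_eq_prime
    · linear_combination (-t - 1) * ht
    · intro h
      apply h3
      have : t = -1 := by linear_combination -h
      rw [this] at ht
      linear_combination ht
  have ht0 : -t ≠ 0 := by
    intro h
    have : t = 0 := by linear_combination -h
    rw [this] at ht
    simp at ht
  have hdvd : orderOf (-t) ∣ (p : ℕ) - 1 := by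
    apply orderOf_dvd_of_pow_eq_one
    exact ZMod.pow_card_sub_one_eq_one ht0
  rw [ho] at hdvd
  omega

/-- There is an injective homomorphism for `p ≡ 1 (mod 3)`. -/
theorem inj_pos (p : {q : ℕ // q.Prime}) (hp : (p : ℕ) % 3 = 1) : inj ag (plane p) ≠ 0 := by
  have : Fact (p : ℕ).Prime := ⟨p.2⟩
  have h3 : (3 : ZMod p) ≠ 0 := by
    intro h
    have h' : ((3 : ℕ) : ZMod p) = 0 := by exact_mod_cast h
    rw [ZMod.natCast_eq_zero_iff] at h'
    have := (Nat.prime_dvd_prime_iff_eq p.2 Nat.prime_three).1 h'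
    omega
  -- a root of `t ^ 2 - t + 1`
  obtain ⟨t, ht⟩ : ∃ t : ZMod p, t ^ 2 - t + 1 = 0 := by
    have : Fact (Nat.Prime 3) := ⟨Nat.prime_three⟩
    obtain ⟨u, hu⟩ := exists_prime_orderOf_dvd_card (G := (ZMod p)ˣ) 3 (by
      rw [ZMod.card_units_eq_totient, Nat.totient_prime p.2]
      have := p.2.two_le
      omega)
    have h1 : ((u : ZMod p)) ^ 3 = 1 := by
      rw [← Units.val_pow_eq_pow_val, ← hu, pow_orderOf_eq_one, Units.val_one]
    have h2 : (u : ZMod p) ≠ 1 := by
      intro h
      have : u = 1 := by ext; simpa using h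
      rw [this, orderOf_one] at hu
      omega
    refine ⟨-u, ?_⟩
    have h4 : ((u : ZMod p) - 1) * ((-(u : ZMod p)) ^ 2 - (-(u : ZMod p)) + 1) = 0 := by
      linear_combination h1
    rcases mul_eq_zero.1 h4 with h | h
    · exact absurd (sub_eq_zero.1 h) h2
    · exact h
  have key := pv_lv t ht h3
  have hpv : ∀ P, pv t P ≠ 0 := by
    intro P h
    obtain ⟨l, hl⟩ := ag_off_pt P
    have := (key P l).1 (by rw [h]; simp)
    rw [hl] at this
    exact Bool.false_ne_true this
  have hlv : ∀ l, lv t l ≠ 0 := by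
    intro l h
    obtain ⟨P, hl⟩ := ag_off_line l
    have := (key P l).1 (by rw [h]; simp)
    rw [hl] at this
    exact Bool.false_ne_true this
  have key' : ∀ P l, Projectivization.orthogonal
      (Projectivization.mk (ZMod p) (pv t P) (hpv P))
      (Projectivization.mk (ZMod p) (lv t l) (hlv l)) ↔ inc P l = true := by
    intro P l
    rw [Projectivization.orthogonal_mk]
    exact key P l
  unfold inj
  rw [Nat.card_ne_zero]
  constructor
  · refine ⟨⟨⟨fun P => Projectivization.mk (ZMod p) (pv t P) (hpv P),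
      fun l => Projectivization.mk (ZMod p) (lv t l) (hlv l)⟩, ?_, ?_, ?_⟩⟩
    · intro P Q h
      by_contra hne
      obtain ⟨l, h1, h2⟩ := ag_sep_pt P Q hne
      have h5 := (key' P l).2 h1
      have h6 : Projectivization.mk (ZMod p) (pv t P) (hpv P) =
        Projectivization.mk (ZMod p) (pv t Q) (hpv Q) := h
      rw [h6] at h5
      have h7 := (key' Q l).1 h5
      rw [h2] at h7
      exact Bool.false_ne_true h7
    · intro l m h
      by_contra hne
      obtain ⟨P, h1, h2⟩ := ag_sep_line l m hne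
      have h5 := (key' P l).2 h1
      have h6 : Projectivization.mk (ZMod p) (lv t l) (hlv l) =
        Projectivization.mk (ZMod p) (lv t m) (hlv m) := h
      rw [h6] at h5
      have h7 := (key' P m).1 h5
      rw [h2] at h7
      exact Bool.false_ne_true h7
    · intro P l h
      exact (key' P l).2 ((ag_E P l).1 h)
  · have : Finite (ℙ (ZMod p) (Fin 3 → ZMod p)) := by
      unfold Projectivization
      infer_instance
    have : Finite (plane p).V₁ := this
    have : Finite (plane p).V₂ := this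
    have : Finite ag.V₁ := inferInstanceAs (Finite (Fin 3 × Fin 3))
    have : Finite ag.V₂ := inferInstanceAs (Finite (Option (Fin 3) × Fin 3))
    infer_instance

lemma logInj_bot (p : {q : ℕ // q.Prime}) (hp : (p : ℕ) % 3 = 2) : logInj ag p = ⊥ := by
  unfold logInj
  rw [inj_zero p hp, Nat.cast_zero, ENNReal.log_zero]
  apply EReal.bot_div_of_pos_ne_top
  · have : 0 < Real.log (p : ℕ) := Real.log_pos (by exact_mod_cast p.2.one_lt)
    exact_mod_cast this
  · exact EReal.coe_ne_top _

lemma logInj_nonneg (p : {q : ℕ // q.Prime}) (hp : (p : ℕ) % 3 = 1) : 0 ≤ logInj ag p := by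
  unfold logInj
  apply EReal.div_nonneg
  · rw [ENNReal.zero_le_log_iff]
    have := Nat.one_le_iff_ne_zero.2 (inj_pos p hp)
    exact_mod_cast this
  · have : 0 ≤ Real.log (p : ℕ) := Real.log_nonneg (by exact_mod_cast p.2.one_lt.le)
    exact_mod_cast this

lemma frequently_mod (a : ℕ) (ha : a.Coprime 3) :
    ∃ᶠ p : {q : ℕ // q.Prime} in atTop, (p : ℕ) % 3 = a % 3 := by
  have : Nonempty {q : ℕ // q.Prime} := ⟨⟨2, Nat.prime_two⟩⟩
  rw [Filter.frequently_atTop]
  intro q
  obtain ⟨p, h1, h2, h3⟩ := Nat.forall_exists_prime_gt_and_modEq (q : ℕ) (q := 3) (by norm_num) ha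
  exact ⟨⟨p, h2⟩, le_of_lt h1, h3⟩

/-- **Result.** For the incidence graph `H` of the affine plane of order three,
`inj(H, G_p) = 0` for all primes `p ≡ 2 (mod 3)` and `inj(H, G_p) > 0` for all primes
`p ≡ 1 (mod 3)`, and the sequence `log_p inj(H, G_p)` over the primes has no limit in the
extended reals. -/
theorem result : ∃ H : BGraph, Finite H.V₁ ∧ Finite H.V₂ ∧ (∃ x y, H.E x y) ∧
    (∀ p : {q : ℕ // q.Prime}, (p : ℕ) % 3 = 2 → inj H (plane p) = 0) ∧
    (∀ p : {q : ℕ // q.Prime}, (p : ℕ) % 3 = 1 → 0 < inj H (plane p)) ∧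
    ¬ ∃ L : EReal, Tendsto (fun p : {q : ℕ // q.Prime} => logInj H p) atTop (nhds L) := by
  refine ⟨ag, inferInstanceAs (Finite (Fin 3 × Fin 3)),
    inferInstanceAs (Finite (Option (Fin 3) × Fin 3)), ⟨((0, 0) : Fin 3 × Fin 3),
    ((none, 0) : Option (Fin 3) × Fin 3), (ag_E _ _).2 (by decide)⟩, inj_zero,
    fun p hp => Nat.pos_of_ne_zero (inj_pos p hp), ?_⟩
  rintro ⟨L, hL⟩
  have h1 : L ∈ ({⊥} : Set EReal) :=
    isClosed_singleton.mem_of_frequently_of_tendsto
      ((frequently_mod 2 (by norm_num)).mono fun p hp => logInj_bot p hp) hL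
  have h2 : L ∈ Set.Ici (0 : EReal) :=
    isClosed_Ici.mem_of_frequently_of_tendsto
      ((frequently_mod 1 (by norm_num)).mono fun p hp => logInj_nonneg p hp) hL
  rw [Set.mem_singleton_iff] at h1
  rw [h1] at h2
  exact absurd h2 (by simp)

end Pool.Agent.Results.MP_5e7574_co.PrimesDiverge
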